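import Pool.Agent.Helper25.SM.Pair

set_option autoImplicit false

/-! # The strong monodromy conjecture for two plane curves in general position -/

namespace Pool.Agent.Results.MP_b07157_ag.GeneralPosition

open MvPolynomial Pool.Agent.K3h38.PC Pool.Agent.Helper25.SM

/-- The excluded pairs: `H` is the `e`-th power of a linear form and every irreducible component of
`G` of degree at least two has a multiplicity `m` with `6 (m + e) = 5 d`. (This is impossible for
`6 (e + 1) ≠ 5 d` if the components of `G` are simple, and for `3 e < 2 d`.) -/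
def Exceptional (G H : MvPolynomial (Fin 3) ℂ) (e d : ℕ) : Prop :=
  (∃ l : MvPolynomial (Fin 3) ℂ, l.IsHomogeneous 1 ∧ H = l ^ e) ∧
    ∀ (A : MvPolynomial (Fin 3) ℂ) (m : ℕ), IsComponent G A m → 2 ≤ A.totalDegree →
      6 * (m + e) = 5 * d

theorem not_exceptional {G H : MvPolynomial (Fin 3) ℂ} {e d : ℕ} (h : ¬ Exceptional G H e d)
    (l : MvPolynomial (Fin 3) ℂ) (hl : l.IsHomogeneous 1) (hH : H = l ^ e) :
    ∃ A m, IsComponent G A m ∧ 2 ≤ A.totalDegree ∧ 6 * (m + e) ≠ 5 * d := by
  by_contra hcon
  push Not at hcon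
  exact h ⟨⟨l, hl, hH⟩, hcon⟩

/-- **The strong monodromy conjecture for the union of two arbitrary plane curves in general
position.** Let `G` and `H` be forms of degrees `dG, dH ≥ 1` in three variables over a subfield `k`
of `ℂ`, not both products of linear forms, and let `g` be a `3 × 3` matrix whose nine entries are
algebraically independent over `k`. The singularities of the curves `G = 0` and `H = 0` and the
multiplicities of their components are arbitrary; only the pairs of `Exceptional` are excluded.
Then the strong monodromy conjecture holds, globally and locally at the origin, for the form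
`f(x) = G(g x) H(x)` of degree `d = dG + dH`, and `-3/d` is a root of its Bernstein-Sato
polynomial. -/
theorem result (k : Subfield ℂ) (G H : MvPolynomial (Fin 3) k) (dG dH : ℕ) (hdG : 0 < dG)
    (hdH : 0 < dH) (hG : G.IsHomogeneous dG) (hH : H.IsHomogeneous dH) (hG0 : G ≠ 0)
    (hH0 : H ≠ 0)
    (hnl : ∃ A : MvPolynomial (Fin 3) ℂ, Irreducible A ∧ 2 ≤ A.totalDegree ∧
      (A ∣ map k.subtype G ∨ A ∣ map k.subtype H))
    (hex : ¬ Exceptional (map k.subtype G) (map k.subtype H) dH (dG + dH))
    (hex' : ¬ Exceptional (map k.subtype H) (map k.subtype G) dG (dG + dH))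
    (g : Matrix (Fin 3) (Fin 3) ℂ)
    (hg : AlgebraicIndependent k fun p : Fin 3 × Fin 3 => g p.1 p.2) :
    StrongMonodromy
      (bind₁ (fun i => ∑ j, C (g i j) * X j) (map k.subtype G) * map k.subtype H) (dG + dH) := by
  have hinj : Function.Injective (map (σ := Fin 3) k.subtype) :=
    map_injective _ k.subtype.injective
  have hG0' : map k.subtype G ≠ 0 := fun h => hG0 (hinj (by rw [h, map_zero]))
  have hH0' : map k.subtype H ≠ 0 := fun h => hH0 (hinj (by rw [h, map_zero]))
  have hpair : ∃ A m B n, IsComponent (map k.subtype G) A m ∧ IsComponent (map k.subtype H) B n ∧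
      (2 ≤ A.totalDegree ∨ 2 ≤ B.totalDegree) ∧ 6 * (m + n) ≠ 5 * (dG + dH) := by
    obtain ⟨A, hA, hA2, h | h⟩ := hnl
    · obtain ⟨A, m, B, n, h1, h2, h3, h4⟩ := exists_pair (map k.subtype G) (map k.subtype H)
        dG dH (hG.map _) (hH.map _) hG0' hH0' hdH A hA h hA2 (not_exceptional hex)
      exact ⟨A, m, B, n, h1, h2, Or.inl h3, h4⟩
    · obtain ⟨A, m, B, n, h1, h2, h3, h4⟩ := exists_pair (map k.subtype H) (map k.subtype G)
        dH dG (hH.map _) (hG.map _) hH0' hG0' hdG A hA h hA2 (by
          rw [add_comm dH dG]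
          exact not_exceptional hex')
      exact ⟨B, n, A, m, h2, h1, Or.inr h3, by rwa [add_comm n m, add_comm dG dH]⟩
  obtain ⟨A, m, B, n, h1, h2, h3, h4⟩ := hpair
  obtain ⟨G', a1, a2, a3, -⟩ := h1.data hG0' (hG.map _)
  obtain ⟨H', b1, b2, b3, -⟩ := h2.data hH0' (hH.map _)
  exact strong_of_root _ (f_ne_zero k hG0 hH0 g hg) (dG + dH) (by omega)
    ((linS_hom _ (hG.map _)).mul (hH.map _))
    (fun b hb => root_generic k G H dG dH hG hH A G' B H' m n h1.2.1 h2.2.1 a1 b1 h1.1 h2.1
      A.totalDegree B.totalDegree a3 b3 a2 b2 h3 h4 g hg b hb)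

end Pool.Agent.Results.MP_b07157_ag.GeneralPosition
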