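import Pool.Agent.Helper48.IF.Main

set_option autoImplicit false

/-! # The strong monodromy conjecture and weighted initial forms

Let `φ` be a weighted homogeneous polynomial of weight `d` in `c` variables of the weights `w_i > 0`, and
`ν = ∑ w_i`. Let `f` be a polynomial or a power series such that `φ` is its weighted initial form
(restricted to the normal space at the origin) along a smooth formal centre of codimension `c`, in some
formal coordinates. In geometric terms: the exceptional divisor of this weighted blow-up has the
numerical data `(N, ν) = (d, ν)`.

* (A) If the twisted form `φ ^ (-ν/d) Ω` is not exact (`NonexactForm`), then `-ν/d` is a root of all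
  functional equations `b(s) f ^ s = P(s) f ^ (s+1)` over the formal power series, whatever the terms
  of `f` of higher weight are.
* (B) The form is not exact if `φ` has normal crossings outside the origin, but not at the origin, in a
  chart `x = h(y)` (`ChartForm`), provided that no exponent `λ_k` is in `{0, -1, -2, ...}`. If `h` is the
  identity, this holds for all `φ = ∏ F_k ^ n_k` with arbitrary multiplicities `n_k`; positive integers
  `λ_k = n_k ν / d` are allowed.
* (C) In particular, this is so for the face polynomials of the compact facets of a Newton polyhedron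
  which are simplices, but not `B_1`-facets, if they are nondegenerate and no residue number is
  a positive integer (`FacetForm`). For this case Loeser (1990) assumed that no residue number is an
  integer.
* (D), (E) The strong monodromy conjecture, global and local at `0`, for all `f` such that the
  divisors of an embedded resolution are strict transforms or of the kind (A) (`FromInitialForm`).
* (F) The strong monodromy conjecture at `0` for `f = u ∏ f_i ^ n_i`, `u(0) ≠ 0`, where the weighted initial
  forms of the polynomials `f_i` at the origin have normal crossings outside the origin. (If their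
  linear parts are linearly independent, then the `f_i` are part of a system of coordinates at `0`, and
  no blow-up is needed. Otherwise the weighted blow-up of the origin is an embedded resolution near
  `0`, with cyclic quotient singularities.)

The proof of (A): if `-ν/d` is not a root, then the functional equation at `s = -ν/d`, applied to the
expansion of the symbol `f ^ s` around its initial form, gives in the weight `-ν` a primitive of
`φ ^ (-ν/d) Ω` (`stepW`). The proof of (B): pull the primitive back to the chart (`piola`, `pull_div`);
by Saito's division lemma with weights its poles can be reduced (`init_PWG`, `reduce_all_w`), until one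
arrives at a vector field of weight `0` without divergence which is tangent to all `F_k = 0` with
eigenvalues `μ_k`, and `∑ λ_k μ_k ≠ 0`; its Jordan decomposition shows that there is none
(`no_PW`). -/

namespace Pool.Agent.Results.MP_b07157_ag.InitialForms

open MvPolynomial Pool.Agent.H628R4.TP Pool.Agent.Helper48.IF

/-- **The strong monodromy conjecture and weighted initial forms.** -/
theorem result :
    -- (A) the root of a power series with a non-exact initial form
    (∀ (c k : ℕ) (w : Fin c → ℕ) (d : ℕ) (φ : MvPolynomial (Fin c) ℂ), NonexactForm w d φ →
      ∀ f : MvPowerSeries (Fin c ⊕ Fin k) ℂ, InitialAlong w d φ f →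
        ∀ b : Polynomial ℂ, IsFormalBFunction f b →
          b.eval (-((∑ i, w i : ℕ) : ℂ) / d) = 0) ∧
    -- (B) forms with normal crossings outside the origin, in a chart
    (∀ (c : ℕ) (w : Fin c → ℕ) (d : ℕ) (φ : MvPolynomial (Fin c) ℂ), (∀ i, 0 < w i) → 0 < d →
      ChartForm φ → NonexactForm w d φ) ∧
    -- (C) simplicial facets
    (∀ (c : ℕ) (w : Fin c → ℕ) (d : ℕ) (φ : MvPolynomial (Fin c) ℂ), FacetForm w d φ →
      NonexactForm w d φ ∧ ∀ f, InitialAtOrigin w f d φ →
        GlobalDatum f d (∑ i, w i) ∧ LocalDatum f d (∑ i, w i)) ∧
    -- (D) the global strong monodromy conjecture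
    (∀ (N : ℕ) (f : MvPolynomial (Fin N) ℂ) (b : Polynomial ℂ), IsBFunction f b →
      ∀ (S : Type) [Fintype S] (Nν : S → ℕ × ℕ), (∀ i, GlobalDatum f (Nν i).1 (Nν i).2) →
        Conjecture Nν b) ∧
    -- (E) the local strong monodromy conjecture
    (∀ (N : ℕ) (f : MvPolynomial (Fin N) ℂ), f ≠ 0 →
      ∀ b : Polynomial ℂ, IsLocalBFunction f b →
      ∀ (S : Type) [Fintype S] (Nν : S → ℕ × ℕ), (∀ i, LocalDatum f (Nν i).1 (Nν i).2) →
        Conjecture Nν b) ∧
    -- (F) products of polynomials whose weighted initial forms at the origin cross normally
    (∀ (N r : ℕ) (w : Fin N → ℕ) (f F : Fin r → MvPolynomial (Fin N) ℂ) (e n : Fin r → ℕ)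
      (u : MvPolynomial (Fin N) ℂ), 2 ≤ N → (∀ i, 0 < w i) →
      (∀ i, InitialAtOrigin w (f i) (e i) (F i)) → (∀ i, 0 < e i) → (∀ i, 1 ≤ n i) →
      NormalCrossing F → eval 0 u ≠ 0 →
      ∀ b : Polynomial ℂ, IsLocalBFunction (u * ∏ i, f i ^ n i) b →
        Conjecture (fun i => (n i, 1)) b ∧
        (DependentLinearParts F → Conjecture (fun j : Option (Fin r) =>
          j.elim (∑ i, n i * e i, ∑ i, w i) fun i => (n i, 1)) b)) :=
  ⟨t_root, t_chart, fun c w d φ hφ => ⟨t_facet c w d φ hφ, fun f hf =>
      t_init c w d φ f (t_facet c w d φ hφ) hf⟩,
    fun N f b hb S _ Nν h => t_global N f b hb S Nν h,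
    fun N f hf b hb S _ Nν h => t_local N f hf b hb S Nν h,
    fun _ _ w f F e n u hN hw hf he hn hF hu b hb =>
      ⟨t_explicit_ind w f F e n u hN hw hf he hF hu b hb,
        fun hli => t_explicit w f F e n u hN hw hf he hn hF hu hli b hb⟩⟩

end Pool.Agent.Results.MP_b07157_ag.InitialForms
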