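import Pool.Agent.Helper25.SM.QF

set_option autoImplicit false

/-! # The strong monodromy conjecture for very general members of families of plane curves with a
nodal (or other quasi-homogeneous) member which is smoothed by the family -/

namespace Pool.Agent.Results.MP_b07157_ag.LinearSystems

open MvPolynomial Pool.Agent.K3h38.PC Pool.Agent.Helper25.SM

/-- **The strong monodromy conjecture for very general members of families and linear systems.**
Let `k` be a subfield of `ℂ`, and let `F i` (`i ∈ σ`) and `h` be families of ternary forms of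
degrees `m` and `c`, whose coefficients are polynomials over `k` in parameters `t j` (`j ∈ J`). The
member with parameter `t` is `map (eval₂Hom k.subtype t) (F i)`. Let `G` be a form of degree
`e ≥ 1` over `k` in the variables `σ`. Suppose that for some parameter `lam` and direction `mu`,
some `z` with `G(z) ≠ 0` and some `b ≠ 0`:
* `F i` has at `lam` the member `z i * A`, and `A` has at `p = x(0)` a semi-quasi-homogeneous
  isolated singularity: `x` is a polynomial map from the plane to `ℂ ^ 3` such that `x(0)` and the
  partial derivatives of `x` at `0` are linearly independent, and `A(x)` is the sum of a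
  quasi-homogeneous polynomial `φ` of degree `N` for the weights `w`, whose partial derivatives
  vanish at `0` and are relatively prime, and of monomials of weighted degree `> N` (for a node:
  linear coordinates, `φ = X₀ X₁`, `w = (1, 1)`, `N = 2`);
* the derivative at `s = 0` of the value at `p` of the member of `F i` with parameter
  `lam + s mu` is `z i * b`;
* the member of `h` with parameter `lam` does not vanish at `p`.
Then for every parameter `t` with algebraically independent coordinates over `k` the strong
monodromy conjecture holds, globally and locally at the origin, for the form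
`f(y) = G(F_t(y)) h_t(y)` of degree `d = e m + c`, and `-3/d` is a root of its Bernstein-Sato
polynomial. -/
theorem result (k : Subfield ℂ) {σ J : Type} (m e c : ℕ) (he : 0 < e)
    (F : σ → MvPolynomial (Fin 3) (MvPolynomial J k)) (hF : ∀ i, (F i).IsHomogeneous m)
    (h : MvPolynomial (Fin 3) (MvPolynomial J k)) (hh : h.IsHomogeneous c)
    (G : MvPolynomial σ k) (hG : G.IsHomogeneous e)
    (lam mu : J → ℂ) (z : σ → ℂ) (hz : eval z (map k.subtype G) ≠ 0)
    (A : MvPolynomial (Fin 3) ℂ) (hA : ∀ i, map (eval₂Hom k.subtype lam) (F i) = C (z i) * A)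
    (x : Fin 3 → MvPolynomial (Fin 2) ℂ)
    (hx : LinearIndependent ℂ ![fun l => constantCoeff (x l),
      fun l => constantCoeff (pderiv 0 (x l)), fun l => constantCoeff (pderiv 1 (x l))])
    (w : Fin 2 → ℕ) (hw : ∀ i, 0 < w i) (N : ℕ) (hN : 0 < N)
    (φ : MvPolynomial (Fin 2) ℂ) (hφ : φ.IsWeightedHomogeneous w N)
    (hφ0 : ∀ i, constantCoeff (pderiv i φ) = 0)
    (hφ1 : IsRelPrime (pderiv 0 φ) (pderiv 1 φ))
    (hAφ : ∀ u ∈ (aeval x A - φ).support, N < Finsupp.weight w u)
    (hm : 3 ≤ m ∨ m = 2 ∧ N < 2 * (w 0 + w 1))
    (b : ℂ) (hb : b ≠ 0)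
    (hmove : ∀ i, (eval₂Hom (eval₂Hom (Polynomial.C.comp k.subtype) fun j =>
      Polynomial.C (lam j) + Polynomial.X * Polynomial.C (mu j))
        (fun l => Polynomial.C (constantCoeff (x l))) (F i)).coeff 1 = z i * b)
    (hhp : eval (fun l => constantCoeff (x l)) (map (eval₂Hom k.subtype lam) h) ≠ 0)
    (t : J → ℂ) (ht : AlgebraicIndependent k t) :
    StrongMonodromy (aeval (fun i => map (eval₂Hom k.subtype t) (F i)) (map k.subtype G) *
      map (eval₂Hom k.subtype t) h) (e * m + c) := by
  refine strong_qf k F hF G h e c he hG hh w hw N hN φ hφ hφ1 hφ0 hm x ?_ lam mu z hz A hA hAφ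
    b hb hmove hhp t ht
  set M : Matrix (Fin 3) (Fin 3) ℂ := Matrix.of fun i j : Fin 3 =>
      constantCoeff ((![x, fun l => pderiv 0 (x l), fun l => pderiv 1 (x l)] :
        Fin 3 → Fin 3 → MvPolynomial (Fin 2) ℂ) i j) with hM
  have h2 : M.row = ![fun l => constantCoeff (x l),
      fun l => constantCoeff (pderiv 0 (x l)), fun l => constantCoeff (pderiv 1 (x l))] := by
    funext i
    fin_cases i <;> rfl
  have h1 : IsUnit M := by
    rw [← Matrix.linearIndependent_rows_iff_isUnit, h2]
    exact hx
  have hD := ((Matrix.isUnit_iff_isUnit_det M).1 h1).ne_zero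
  rw [Matrix.det_fin_three] at hD
  simp only [hM, Matrix.of_apply, Matrix.cons_val_zero, Matrix.cons_val_one, Matrix.cons_val] at hD
  intro h0
  apply hD
  simp only [D3, map_sub, map_add, map_mul] at h0
  linear_combination h0

end Pool.Agent.Results.MP_b07157_ag.LinearSystems
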