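import Pool.Agent.Helper48.RC.Chamber
import Pool.Graph.R_pool_sql_team_seeded_5cf16337.K3h38.AD.Zeta

set_option autoImplicit false

/-! # The strong monodromy conjecture for forms with a good real chamber

Let `f = ∏ F_i ^ n_i` be a form of degree `d > 0` in `N = m + 1` variables over a field `k`, let
`ι : k → ℂ` and `τ : k → ℝ` be embeddings. If the real form `f^τ` has a good chamber, an open cone `Δ`
bounded by zeros of `f^τ` such that `|f^τ| ^ (-N/d)` is integrable on `Δ` outside the origin (for
example if the multiplicity of `f^τ` is less than `d/N` at all points `x ≠ 0` of the closure of `Δ`),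
then `-N/d` is a root of the Bernstein-Sato polynomial of `f^ι`, and the strong monodromy conjecture
holds for `f^ι` if `N = 3`. All other singularities, real or not, are arbitrary.

* `nf_transfer` (`Helper48/RC/Fam.lean`): a functional equation `b(s) f^s = P(s) f^(s+1)` for `f^ι` with
  `b(-N/d) ≠ 0` yields one for `f^τ` over `ℝ`: write the operators in normal form and apply a
  `k`-linear map `ℂ → k` to the coefficients.
* `ibp`, `integral_gen` (`Ibp.lean`): integration by parts over the cone `Δ` against test functions.
* `Wedge.lint_ball`, `Wedge.lint_crit` (`Scale.lean`): the powers `|f^τ| ^ t`, `t > -N/d`, are locally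
  integrable on `Δ`, the power `-N/d` is not integrable at the origin.
* `PB.vanish` (`Growth.lean`): Carlson's theorem extends the functional equation of the zeta
  functions `∫_Δ |f^τ| ^ s φ` from the integers to the half plane `Re s > -N/d`.
* `Wedge.root` (`Root.lean`): for `s → -N/d` one gets `b(-N/d) = 0`.
* `sublevel`, `integrable_of_order` (`Sublevel.lean`, `LocInt.lean`, `Mult.lean`): a polynomial of
  multiplicity `j` at a point has a locally integrable power `|g| ^ (-s)`, `s j < 1`.
* `strong_of_root`, `conclusion_of_root` (`Pool.Graph ... K3h38`): the other poles are roots. -/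

namespace Pool.Agent.Results.MP_b07157_ag.RealChambers

open MvPolynomial Pool.Agent.Helper48.RC Pool.Agent.K3h38.AD Pool.Agent.K3h38.PC

/-- **The strong monodromy conjecture for forms with a good real chamber.** Let
`f = ∏ F_i ^ n_i` be a form of degree `d > 0` in `m + 1` variables over a field `k` with embeddings
`ι : k → ℂ`, `τ : k → ℝ`. If `f^τ` has a good chamber (`GoodChamber`), then `Conclusion` holds for
`f^ι`: `-(m + 1)/d` is a root of every `b` with a functional equation (global, and local at the
origin), and the strong monodromy conjecture holds in the case of normal crossings. If the number of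
variables is three, then the strong monodromy conjecture (`StrongMonodromy`, global and local at the
origin) holds for `f^ι` without any condition on the other singularities. -/
theorem result {k : Type} [Field k] (ι : k →+* ℂ) (τ : k →+* ℝ) {m r : ℕ}
    (F : Fin (r + 1) → MvPolynomial (Fin (m + 1)) k) (n : Fin (r + 1) → ℕ) (d : ℕ) (hd : 0 < d)
    (hf : (∏ i, F i ^ n i).IsHomogeneous d) (Δ : Set (Fin (m + 1) → ℝ))
    (hΔ : GoodChamber (map τ (∏ i, F i ^ n i)) d Δ) :
    Conclusion (fun i => map ι (F i)) n d ∧
    ∀ hm : m + 1 = 3, StrongMonodromy (rename (Fin.cast hm) (∏ i, map ι (F i) ^ n i)) d := by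
  have hmap : map ι (∏ i, F i ^ n i) = ∏ i, map ι (F i) ^ n i := by
    rw [map_prod]
    exact Finset.prod_congr rfl fun i _ => map_pow _ _ _
  have hroot := fun b => root_of_chamber hd ι τ _ hf Δ hΔ b
  have hf0 : (∏ i, F i ^ n i) ≠ 0 := by
    intro h0
    obtain ⟨_, ⟨x, hx⟩, _, hne, _⟩ := hΔ
    apply hne x hx
    rw [h0, map_zero, map_zero]
  have hf0' : (∏ i, map ι (F i) ^ n i) ≠ 0 := by
    rw [← hmap]
    intro h0
    exact hf0 (map_injective ι ι.injective (by rw [h0, map_zero]))
  have hfhom : (∏ i, map ι (F i) ^ n i).IsHomogeneous d := by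
    rw [← hmap]
    exact hf.map ι
  rw [hmap] at hroot
  refine ⟨conclusion_of_root _ n d hd hf0' hfhom hroot, fun hm => ?_⟩
  obtain rfl : m = 2 := by omega
  have h1 : (Fin.cast hm : Fin (2 + 1) → Fin 3) = id := by
    funext i
    rfl
  rw [h1, rename_id_apply]
  refine strong_of_root _ hf0' d hd hfhom fun b hb => ?_
  have h2 := hroot b hb
  have h3 : ((2 + 1 : ℕ) : ℂ) = 3 := by norm_num
  rw [h3] at h2
  exact h2

end Pool.Agent.Results.MP_b07157_ag.RealChambers
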